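import Mathlib
import Pool.Agent.X167.Cayley

/-!
# MP_ec5dc5_gt, Q1 (c): the group of compactly supported symplectomorphisms of `ℝ^{2n}` has countably
many path components

`SympCt n` is the set of the compactly supported symplectomorphisms of `ℝ^{2n}` with the direct limit
topology of the `C^∞` topologies of the subsets `SympIn n K`, `K` compact.  Its set of path components
is Mathlib's `ZerothHomotopy (SympCt n)`.

Proof.  Let `φ` and `ψ` be symplectomorphisms supported in a closed ball `B` whose first derivatives are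
close on `B` (how close depends on `φ` only).  Then `θ = ψ ∘ φ⁻¹` is `C¹` close to the identity, so that
the midpoint map `x ↦ (x + θ x) / 2` is a diffeomorphism, and the displacement `V = θ x - x`, as a
function of the midpoint `w`, is a field of infinitesimally symplectic maps (Cayley transform).  The
symplectomorphisms `w - s V(w) ↦ w + s V(w)`, `0 ≤ s ≤ 1/2`, join the identity to `θ`, and are supported
in `B` because `B` is convex.  So the path components of `SympIn n B` are open for the topology of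
uniform convergence of the first derivatives, which is second countable.
-/

set_option autoImplicit false

open Set Filter Topology Metric Function
open scoped ContDiff NNReal

noncomputable section

namespace Pool.Agent.Results.MP_ec5dc5_gt.CountableComponents

/-- `ℝ^{2n}`; the coordinates of `z` are `x_i = z (i, 0)` and `y_i = z (i, 1)`. -/
abbrev E (n : ℕ) : Type := EuclideanSpace ℝ (Fin n × Fin 2)

/-- The standard symplectic form `∑ dx_i ∧ dy_i`. -/
def omega {n : ℕ} (u v : E n) : ℝ :=
  ∑ i : Fin n, (u (i, 0) * v (i, 1) - u (i, 1) * v (i, 0))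

/-- `φ` is a symplectomorphism of `ℝ^{2n}`: a diffeomorphism preserving the standard form. -/
structure IsSymplectomorphism {n : ℕ} (φ : E n → E n) : Prop where
  smooth : ContDiff ℝ ∞ φ
  inverse : ∃ χ : E n → E n, ContDiff ℝ ∞ χ ∧ LeftInverse χ φ ∧ RightInverse χ φ
  symplectic : ∀ x u v : E n, omega (fderiv ℝ φ x u) (fderiv ℝ φ x v) = omega u v

/-- `φ` is the identity outside `K`. -/
def SupportedIn {n : ℕ} (K : Set (E n)) (φ : E n → E n) : Prop := ∀ x, x ∉ K → φ x = x

/-- The symplectomorphisms of `ℝ^{2n}` supported in `K`. -/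
@[ext] structure SympIn (n : ℕ) (K : Set (E n)) where
  /-- the underlying map -/
  map : E n → E n
  isSymp : IsSymplectomorphism map
  supported : SupportedIn K map

/-- The derivative of order `j` of a symplectomorphism, as a continuous map. -/
def jet {n : ℕ} {K : Set (E n)} (j : ℕ) (φ : SympIn n K) :
    C(E n, ContinuousMultilinearMap ℝ (fun _ : Fin j => E n) (E n)) :=
  ⟨iteratedFDeriv ℝ j φ.map, φ.isSymp.smooth.continuous_iteratedFDeriv (by exact_mod_cast le_top)⟩

/-- The `C^∞` topology: uniform convergence on compact sets of the derivatives of all orders, that is,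
the coarsest topology for which all the maps `jet j` are continuous, where the spaces of continuous
maps have the compact-open topology. -/
instance (n : ℕ) (K : Set (E n)) : TopologicalSpace (SympIn n K) :=
  ⨅ j : ℕ, TopologicalSpace.induced (jet j) ContinuousMap.compactOpen

/-- The group `G` of the compactly supported symplectomorphisms of `ℝ^{2n}`. -/
@[ext] structure SympCt (n : ℕ) where
  /-- the underlying map -/
  map : E n → E n
  isSymp : IsSymplectomorphism map
  compactSupport : ∃ K : Set (E n), IsCompact K ∧ SupportedIn K map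

/-- The inclusion of the subgroup of the symplectomorphisms supported in the compact set `K`. -/
def incl {n : ℕ} (K : {K : Set (E n) // IsCompact K}) (φ : SympIn n K.1) : SympCt n :=
  ⟨φ.map, φ.isSymp, K.1, K.2, φ.supported⟩

/-- The direct limit topology: the finest topology for which all the inclusions are continuous. -/
instance (n : ℕ) : TopologicalSpace (SympCt n) :=
  ⨆ K : {K : Set (E n) // IsCompact K}, TopologicalSpace.coinduced (incl K) inferInstance

/-- `φ` and `ψ` are joined by a smooth path of symplectomorphisms, all supported in one compact set. -/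
def SmoothlyIsotopic {n : ℕ} (φ ψ : SympCt n) : Prop :=
  ∃ (K : Set (E n)) (Φ : ℝ → E n → E n), IsCompact K ∧
    ContDiff ℝ ∞ (fun p : ℝ × E n => Φ p.1 p.2) ∧
    (∀ t, IsSymplectomorphism (Φ t) ∧ SupportedIn K (Φ t)) ∧ Φ 0 = φ.map ∧ Φ 1 = ψ.map

/-! ### The standard form as a bilinear form -/

/-- The standard symplectic form as a bilinear form. -/
def om (n : ℕ) : E n →ₗ[ℝ] E n →ₗ[ℝ] ℝ :=
  LinearMap.mk₂ ℝ omega
    (fun u v w => by
      unfold omega
      rw [← Finset.sum_add_distrib]
      refine Finset.sum_congr rfl fun i _ => ?_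
      simp only [PiLp.add_apply]
      ring)
    (fun c u v => by
      unfold omega
      rw [smul_eq_mul, Finset.mul_sum]
      refine Finset.sum_congr rfl fun i _ => ?_
      simp only [PiLp.smul_apply, smul_eq_mul]
      ring)
    (fun u v w => by
      unfold omega
      rw [← Finset.sum_add_distrib]
      refine Finset.sum_congr rfl fun i _ => ?_
      simp only [PiLp.add_apply]
      ring)
    (fun c u v => by
      unfold omega
      rw [smul_eq_mul, Finset.mul_sum]
      refine Finset.sum_congr rfl fun i _ => ?_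
      simp only [PiLp.smul_apply, smul_eq_mul]
      ring)

theorem om_apply {n : ℕ} (u v : E n) : om n u v = omega u v := rfl

/-! ### Symplectomorphisms close to a given one -/

/-- Two symplectomorphisms supported in a closed ball whose first derivatives are close are joined by a
smooth path of symplectomorphisms supported in the ball. -/
theorem path_of_close {n : ℕ} (R : ℝ) (φ : SympIn n (closedBall 0 R)) :
    ∃ ε > 0, ∀ ψ : SympIn n (closedBall 0 R),
      (∀ x ∈ closedBall (0 : E n) R, ‖fderiv ℝ ψ.map x - fderiv ℝ φ.map x‖ < ε) →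
      ∃ Φ : ℝ → E n → E n, ContDiff ℝ ∞ (fun p : ℝ × E n => Φ p.1 p.2) ∧
        (∀ t, IsSymplectomorphism (Φ t) ∧ SupportedIn (closedBall 0 R) (Φ t)) ∧
        Φ 0 = φ.map ∧ Φ 1 = ψ.map := by
  obtain ⟨φ, hφ, hφK⟩ := φ
  obtain ⟨χ, hχ, hχl, hχr⟩ := hφ.inverse
  -- the derivative of `χ` is bounded
  have hχK : ∀ y, y ∉ closedBall (0 : E n) R → χ y = y := by
    intro y hy
    have := hχl y
    rwa [hφK y hy] at this
  have hχc : Continuous (fun y => ‖fderiv ℝ χ y‖) := (hχ.continuous_fderiv (by simp)).norm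
  obtain ⟨C, hC⟩ : ∃ C : ℝ, ∀ y ∈ closedBall (0 : E n) R, ‖fderiv ℝ χ y‖ ≤ C := by
    obtain ⟨C, hC⟩ := (isCompact_closedBall (0 : E n) R).bddAbove_image hχc.continuousOn
    exact ⟨C, fun y hy => hC ⟨y, hy, rfl⟩⟩
  have hopen : IsOpen (closedBall (0 : E n) R)ᶜ := isClosed_closedBall.isOpen_compl
  refine ⟨1 / (2 * (|C| + 1)), by positivity, ?_⟩
  rintro ⟨ψ, hψ, hψK⟩ hclose
  change ∀ x ∈ closedBall (0 : E n) R, ‖fderiv ℝ ψ x - fderiv ℝ φ x‖ < _ at hclose
  -- `θ = ψ ∘ χ`
  have hθd : ∀ y, HasFDerivAt (fun y => ψ (χ y)) ((fderiv ℝ ψ (χ y)).comp (fderiv ℝ χ y)) y :=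
    fun y => HasFDerivAt.comp y (hψ.smooth.differentiable (by simp) _).hasFDerivAt
      (hχ.differentiable (by simp) _).hasFDerivAt
  have hid : ∀ y, (fderiv ℝ φ (χ y)).comp (fderiv ℝ χ y) = ContinuousLinearMap.id ℝ (E n) := by
    intro y
    have h1 : HasFDerivAt (fun y => φ (χ y)) ((fderiv ℝ φ (χ y)).comp (fderiv ℝ χ y)) y :=
      HasFDerivAt.comp y (hφ.smooth.differentiable (by simp) _).hasFDerivAt
        (hχ.differentiable (by simp) _).hasFDerivAt
    have h2 : (fun y => φ (χ y)) = fun y => y := funext hχr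
    rw [h2] at h1
    exact h1.unique (hasFDerivAt_id y)
  have g1 : Injective (fun y => ψ (χ y)) := by
    obtain ⟨ψ', -, hψl, -⟩ := hψ.inverse
    exact hψl.injective.comp hχr.injective
  have g2 : ∀ y u v, om n (fderiv ℝ (fun y => ψ (χ y)) y u) (fderiv ℝ (fun y => ψ (χ y)) y v) =
      om n u v := by
    intro y u v
    rw [(hθd y).fderiv]
    have h1 : omega (fderiv ℝ χ y u) (fderiv ℝ χ y v) = omega u v := by
      have h2 := hφ.symplectic (χ y) (fderiv ℝ χ y u) (fderiv ℝ χ y v)
      have h3 := fun u => DFunLike.congr_fun (hid y) u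
      simp only [ContinuousLinearMap.comp_apply, ContinuousLinearMap.id_apply] at h3
      rw [h3, h3] at h2
      exact h2.symm
    rw [om_apply, om_apply]
    simp only [ContinuousLinearMap.comp_apply]
    rw [hψ.symplectic, h1]
  have g3 : ∀ y, ‖fderiv ℝ (fun y => ψ (χ y)) y - ContinuousLinearMap.id ℝ (E n)‖ ≤ 1 / 2 := by
    intro y
    rw [(hθd y).fderiv]
    by_cases hy : y ∈ closedBall (0 : E n) R
    · have hx : χ y ∈ closedBall (0 : E n) R := by
        by_contra h
        apply h
        have := hφK _ h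
        rw [hχr] at this
        rwa [← this]
      have h1 : (fderiv ℝ ψ (χ y)).comp (fderiv ℝ χ y) - ContinuousLinearMap.id ℝ (E n) =
          (fderiv ℝ ψ (χ y) - fderiv ℝ φ (χ y)).comp (fderiv ℝ χ y) := by
        rw [← hid y, ContinuousLinearMap.sub_comp]
      rw [h1]
      refine (ContinuousLinearMap.opNorm_comp_le _ _).trans ?_
      have h2 := (hclose _ hx).le
      have h3 : ‖fderiv ℝ χ y‖ ≤ |C| + 1 := (hC y hy).trans (by linarith [le_abs_self C])
      calc ‖fderiv ℝ ψ (χ y) - fderiv ℝ φ (χ y)‖ * ‖fderiv ℝ χ y‖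
          ≤ 1 / (2 * (|C| + 1)) * (|C| + 1) :=
            mul_le_mul h2 h3 (norm_nonneg _) (by positivity)
        _ = 1 / 2 := by
            have : |C| + 1 ≠ 0 := by positivity
            field_simp
    · have h1 : (fun y => ψ (χ y)) =ᶠ[𝓝 y] fun y => y := by
        filter_upwards [hopen.mem_nhds hy] with z hz
        rw [hχK z hz, hψK z hz]
      have h2 : (fderiv ℝ ψ (χ y)).comp (fderiv ℝ χ y) = ContinuousLinearMap.id ℝ (E n) :=
        (hθd y).unique ((hasFDerivAt_id y).congr_of_eventuallyEq h1)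
      rw [h2, sub_self, norm_zero]
      norm_num
  have g4 : ∀ y, y ∉ closedBall (0 : E n) R → ψ (χ y) = y := by
    intro y hy
    rw [hχK y hy, hψK y hy]
  obtain ⟨Θ, k1, k2, k3, k4, k5, k6⟩ := Pool.Agent.X167.Cayley.path_to_id (om n)
    (fun y => ψ (χ y)) (hψ.smooth.comp hχ) g1 g2 g3 R g4
  -- the path `Θ t ∘ φ`
  refine ⟨fun t x => Θ t (φ x), ?_, ?_, ?_, ?_⟩
  · exact k1.comp (contDiff_fst.prodMk (hφ.smooth.comp contDiff_snd))
  · intro t
    have hΘt : ContDiff ℝ ∞ (Θ t) :=
      k1.comp (contDiff_const.prodMk contDiff_id : ContDiff ℝ ∞ (fun x : E n => (t, x)))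
    obtain ⟨χ', c1, c2, c3⟩ := k2 t
    refine ⟨⟨hΘt.comp hφ.smooth, ⟨fun x => χ (χ' x), hχ.comp c1, ?_, ?_⟩, ?_⟩, ?_⟩
    · intro x
      show χ (χ' (Θ t (φ x))) = x
      rw [c2, hχl]
    · intro x
      show Θ t (φ (χ (χ' x))) = x
      rw [hχr, c3]
    · intro x u v
      have h1 : HasFDerivAt (fun x => Θ t (φ x))
          ((fderiv ℝ (Θ t) (φ x)).comp (fderiv ℝ φ x)) x :=
        HasFDerivAt.comp x (hΘt.differentiable (by simp) _).hasFDerivAt
          (hφ.smooth.differentiable (by simp) _).hasFDerivAt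
      rw [h1.fderiv]
      have h2 := k3 t (φ x) (fderiv ℝ φ x u) (fderiv ℝ φ x v)
      rw [om_apply, om_apply, hφ.symplectic] at h2
      exact h2
    · intro x hx
      show Θ t (φ x) = x
      rw [hφK x hx, k4 t x hx]
  · funext x
    exact k5 (φ x)
  · funext x
    show Θ 1 (φ x) = ψ x
    rw [k6, hχl]

/-! ### Topology -/

/-- A smooth path of symplectomorphisms supported in `K` is continuous for the `C^∞` topology. -/
theorem continuous_path {n : ℕ} {K : Set (E n)} (Φ : ℝ → E n → E n)
    (h : ContDiff ℝ ∞ (fun p : ℝ × E n => Φ p.1 p.2))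
    (hΦ : ∀ t, IsSymplectomorphism (Φ t) ∧ SupportedIn K (Φ t)) :
    Continuous (fun t => (⟨Φ t, (hΦ t).1, (hΦ t).2⟩ : SympIn n K)) := by
  rw [continuous_iInf_rng]
  intro j
  rw [continuous_induced_rng]
  refine ContinuousMap.continuous_of_continuous_uncurry _ ?_
  -- the derivatives of `Φ t` in terms of those of `Φ`
  let F : ℝ × E n → E n := fun p => Φ p.1 p.2
  let ι : E n →L[ℝ] ℝ × E n := ContinuousLinearMap.inr ℝ ℝ (E n)
  have key : ∀ (t : ℝ) (x : E n), iteratedFDeriv ℝ j (Φ t) x =
      ContinuousMultilinearMap.compContinuousLinearMapL (fun _ : Fin j => ι)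
        (iteratedFDeriv ℝ j F (t, x)) := by
    intro t x
    have h1 : Φ t = (fun p => F ((t, 0) + p)) ∘ ι := by
      funext x
      show Φ t x = F ((t, 0) + (0, x))
      simp [F]
    have h2 : ContDiff ℝ ∞ (fun p => F ((t, 0) + p)) := h.comp (contDiff_const.add contDiff_id)
    rw [h1, ι.iteratedFDeriv_comp_right h2 x (i := j) (by exact_mod_cast le_top),
      iteratedFDeriv_comp_add_left]
    have h3 : ((t, 0) + ι x : ℝ × E n) = (t, x) := by
      show ((t, 0) + (0, x) : ℝ × E n) = (t, x)
      simp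
    rw [h3]
    rfl
  have h4 : (Function.uncurry fun (t : ℝ) (x : E n) =>
      (jet j (⟨Φ t, (hΦ t).1, (hΦ t).2⟩ : SympIn n K)) x) = fun p : ℝ × E n =>
      ContinuousMultilinearMap.compContinuousLinearMapL (fun _ : Fin j => ι)
        (iteratedFDeriv ℝ j F p) := by
    funext p
    exact key p.1 p.2
  show Continuous (Function.uncurry fun (t : ℝ) (x : E n) =>
      (jet j (⟨Φ t, (hΦ t).1, (hΦ t).2⟩ : SympIn n K)) x)
  rw [h4]
  exact (ContinuousLinearMap.continuous _).comp
    (h.continuous_iteratedFDeriv (by exact_mod_cast le_top))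

/-- A smooth isotopy is a path in the direct limit. -/
theorem SmoothlyIsotopic.joined {n : ℕ} {φ ψ : SympCt n} (h : SmoothlyIsotopic φ ψ) :
    Joined φ ψ := by
  obtain ⟨K, Φ, hK, h1, h2, h3, h4⟩ := h
  have hc := continuous_path Φ h1 h2
  have hi : Continuous (incl (n := n) ⟨K, hK⟩) := by
    rw [continuous_iff_coinduced_le]
    exact le_iSup (fun K : {K : Set (E n) // IsCompact K} =>
      TopologicalSpace.coinduced (incl K) inferInstance) ⟨K, hK⟩
  refine ⟨⟨⟨fun t => incl ⟨K, hK⟩ ⟨Φ t, (h2 t).1, (h2 t).2⟩,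
    hi.comp (hc.comp continuous_subtype_val)⟩, ?_, ?_⟩⟩
  · apply SympCt.ext
    show Φ ((0 : unitInterval) : ℝ) = φ.map
    rw [← h3]
    rfl
  · apply SympCt.ext
    show Φ ((1 : unitInterval) : ℝ) = ψ.map
    rw [← h4]
    rfl

/-- Countably many symplectomorphisms supported in a closed ball meet all isotopy classes. -/
theorem countable_ball (n : ℕ) (R : ℝ) : ∃ S : Set (SympIn n (closedBall 0 R)), S.Countable ∧
    ∀ ψ : SympIn n (closedBall 0 R), ∃ φ ∈ S, ∃ Φ : ℝ → E n → E n,
      ContDiff ℝ ∞ (fun p : ℝ × E n => Φ p.1 p.2) ∧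
      (∀ t, IsSymplectomorphism (Φ t) ∧ SupportedIn (closedBall 0 R) (Φ t)) ∧
      Φ 0 = φ.map ∧ Φ 1 = ψ.map := by
  classical
  choose ε hε hclose using path_of_close (n := n) R
  -- the topology of uniform convergence of the first derivatives
  let D : SympIn n (closedBall 0 R) → C(E n, E n →L[ℝ] E n) := fun φ =>
    ⟨fderiv ℝ φ.map, φ.isSymp.smooth.continuous_fderiv (by simp)⟩
  let τ : TopologicalSpace (SympIn n (closedBall 0 R)) :=
    TopologicalSpace.induced D ContinuousMap.compactOpen
  have : @SecondCountableTopology (SympIn n (closedBall 0 R)) τ :=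
    TopologicalSpace.secondCountableTopology_induced _ _ D
  have hD : @Continuous _ _ τ _ D := continuous_induced_dom
  -- open neighbourhoods
  have hU : ∀ φ, ∃ U : Set (SympIn n (closedBall 0 R)), @IsOpen _ τ U ∧ φ ∈ U ∧
      ∀ ψ ∈ U, ∀ x ∈ closedBall (0 : E n) R,
        ‖fderiv ℝ ψ.map x - fderiv ℝ φ.map x‖ < ε φ := by
    intro φ
    have h1 := (ContinuousMap.tendsto_iff_forall_isCompact_tendstoUniformlyOn
      (F := D) (f := D φ) (p := @nhds _ τ φ)).1 (@Continuous.tendsto _ _ τ _ D hD φ) _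
      (isCompact_closedBall (0 : E n) R)
    have h2 := Metric.tendstoUniformlyOn_iff.1 h1 (ε φ) (hε φ)
    obtain ⟨U, hU1, hU2, hU3⟩ := (@eventually_nhds_iff _ τ _ _).1 h2
    refine ⟨U, hU2, hU3, fun ψ hψ x hx => ?_⟩
    have h3 := hU1 ψ hψ x hx
    rw [dist_eq_norm, norm_sub_rev] at h3
    exact h3
  choose U hUo hUm hUc using hU
  obtain ⟨T, hT, hT2⟩ := @TopologicalSpace.isOpen_iUnion_countable _ τ _ _ U hUo
  refine ⟨T, hT, fun ψ => ?_⟩
  have h1 : ψ ∈ ⋃ i ∈ T, U i := by
    rw [hT2]
    exact mem_iUnion.2 ⟨ψ, hUm ψ⟩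
  obtain ⟨φ, hφ, hψ⟩ := mem_iUnion₂.1 h1
  exact ⟨φ, hφ, hclose φ ψ (hUc φ ψ hψ)⟩

/-- **Answer to (c).** For every `n` the space `Symp_ct(ℝ^{2n})`, with the direct limit topology, has
countably many path components. Moreover countably many elements represent all classes for isotopies
that are smooth with uniform compact support. -/
theorem result (n : ℕ) : Countable (ZerothHomotopy (SympCt n)) ∧
    ∃ S : Set (SympCt n), S.Countable ∧ ∀ ψ : SympCt n, ∃ φ ∈ S, SmoothlyIsotopic φ ψ := by
  have main : ∃ S : Set (SympCt n), S.Countable ∧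
      ∀ ψ : SympCt n, ∃ φ ∈ S, SmoothlyIsotopic φ ψ := by
    choose S hS hSc using fun N : ℕ => countable_ball n (N : ℝ)
    refine ⟨⋃ N : ℕ, incl ⟨closedBall 0 (N : ℝ), isCompact_closedBall _ _⟩ '' S N,
      countable_iUnion fun N => (hS N).image _, ?_⟩
    rintro ⟨ψ, hψ, K, hK, hψK⟩
    obtain ⟨r, hr⟩ := hK.isBounded.subset_closedBall (0 : E n)
    obtain ⟨N, hN⟩ := exists_nat_ge r
    have h1 : SupportedIn (closedBall (0 : E n) N) ψ := fun x hx =>
      hψK x fun h => hx (closedBall_subset_closedBall hN (hr h))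
    obtain ⟨φ, hφ, Φ, c1, c2, c3, c4⟩ := hSc N ⟨ψ, hψ, h1⟩
    exact ⟨_, mem_iUnion.2 ⟨N, φ, hφ, rfl⟩, closedBall 0 (N : ℝ), Φ, isCompact_closedBall _ _,
      c1, c2, c3, c4⟩
  refine ⟨?_, main⟩
  obtain ⟨S, hS, h⟩ := main
  have : Countable S := hS.to_subtype
  refine Function.Surjective.countable (f := fun φ : S =>
    (Quotient.mk (pathSetoid (SympCt n)) φ.1 : ZerothHomotopy (SympCt n))) ?_
  intro q
  obtain ⟨ψ, rfl⟩ := Quotient.exists_rep q
  obtain ⟨φ, hφ, hi⟩ := h ψ
  exact ⟨⟨φ, hφ⟩, Quotient.sound hi.joined⟩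

end Pool.Agent.Results.MP_ec5dc5_gt.CountableComponents
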