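import Pool.Agent.X277.Sy.Fam2

/-!
# The smooth homotopy groups
-/

set_option autoImplicit false

open Set Filter Topology Metric Function
open scoped ContDiff NNReal

noncomputable section

namespace Pool.Agent.Results.MP_ec5dc5_gt.HomotopyGroups

open Pool.Agent.X277.Sy

/-- The constant spheroid. -/
def trivialSpheroid (k n : ℕ) : Spheroid k n where
  fam _ := 1
  smooth := isSmoothFamily_const 1
  bounded := ⟨0, fun _ _ => rfl, fun _ _ _ => rfl⟩

/-- For all `k` and `n`: (1) homotopy of smooth `k`-spheroids in `G` is an equivalence relation with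
countably many classes; (2) every class has representatives supported in any given nonempty open set;
(3) for an open set `U` star-shaped about one of its points, homotopic spheroids supported in `U` are
homotopic with supports in `U`; (4) all `k`-spheroids are contractible if and only if, for some nonempty
open set `U` and some `ε > 0`, those supported in `U` and `ε`-close to the identity are. -/
theorem result (k n : ℕ) :
    (Equivalence (Homotopic (k := k) (n := n)) ∧
      ∃ S : Set (Spheroid k n), S.Countable ∧ ∀ g : Spheroid k n, ∃ f ∈ S, Homotopic f g) ∧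
    (∀ U : Set (E n), IsOpen U → U.Nonempty → ∀ f : Spheroid k n,
      ∃ g : Spheroid k n, g.Within U ∧ Homotopic f g) ∧
    (∀ (U : Set (E n)) (p : E n), IsOpen U → p ∈ U → StarConvex ℝ p U → ∀ f g : Spheroid k n,
      f.Within U → g.Within U → Homotopic f g → HomotopicWithin U f g) ∧
    ((∀ f : Spheroid k n, Homotopic f (trivialSpheroid k n)) ↔
      ∃ U : Set (E n), IsOpen U ∧ U.Nonempty ∧ ∃ ε > 0, ∀ f : Spheroid k n, f.Within U →
        (∀ s x, dist ((f.fam s).map x) x ≤ ε) → Homotopic f (trivialSpheroid k n)) := by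
  refine ⟨⟨⟨fun f => ?_, fun h => h.symm, fun h h' => h.trans h'⟩, countable_spheroids k n⟩, ?_, ?_,
    ?_, ?_⟩
  · obtain ⟨r, h1, h2⟩ := f.bounded
    exact ⟨closedBall 0 r, isCompact_closedBall _ _, fun q => f.fam q.2,
      f.smooth.comp contDiff_snd, fun _ => rfl, fun _ => rfl, ⟨r, fun _ s hs => h1 s hs⟩,
      fun q => h2 q.2⟩
  · exact fun U hU hne f => exists_small_spheroid hU hne f
  · exact fun U p hU hp hstar f g hf hg h => homotopicWithin_of_homotopic hU hp hstar hf hg h
  · exact fun h => ⟨univ, isOpen_univ, ⟨0, mem_univ _⟩, 1, one_pos, fun f _ _ => h f⟩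
  · rintro ⟨U, hU, ⟨p, hp⟩, ε, hε, h⟩ f
    have hV : IsOpen (U ∩ ball p (ε / 2)) := hU.inter isOpen_ball
    obtain ⟨g, ⟨K, hK, hKV, hg⟩, h2⟩ := exists_small_spheroid hV
      ⟨p, hp, mem_ball_self (by linarith)⟩ f
    refine h2.trans (h g ⟨K, hK, fun x hx => (hKV hx).1, hg⟩ fun s x => ?_)
    by_cases hx : x ∈ K
    · have h3 : (g.fam s).map x ∈ K := by
        by_contra hn
        have h4 := congrArg (g.fam s)⁻¹.map (hg s _ hn)
        rw [inv_map_map, inv_map_map] at h4
        rw [h4] at hn
        exact hn hx
      have h5 := mem_ball.1 (hKV hx).2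
      have h6 := mem_ball.1 (hKV h3).2
      calc dist ((g.fam s).map x) x ≤ dist ((g.fam s).map x) p + dist x p :=
            dist_triangle_right _ _ _
        _ ≤ ε := by linarith
    · rw [hg s x hx, dist_self]
      exact hε.le

end Pool.Agent.Results.MP_ec5dc5_gt.HomotopyGroups
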