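import Pool.Agent.X277.Sy.Neg

/-!
# Symplectomorphisms whose differentials have no negative eigenvalues
-/

set_option autoImplicit false

open Set Filter Topology Metric Function
open scoped ContDiff NNReal

noncomputable section

namespace Pool.Agent.Results.MP_ec5dc5_gt.NegativeEigenvalues

open Pool.Agent.X277.Sy

/-- For no `x` there are `v ≠ 0` and `m < 0` with `Dψ(x)v = m Dφ(x)v`. -/
def NoNegative {n : ℕ} (φ ψ : SympCt n) : Prop :=
  ∀ (x v : E n) (m : ℝ), m < 0 → fderiv ℝ ψ.map x v = m • fderiv ℝ φ.map x v → v = 0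

/-- `φ` and `ψ` are joined by a smooth isotopy with compact support which is stationary at the points
where `φ = ψ`. -/
def StationaryIsotopic {n : ℕ} (φ ψ : SympCt n) : Prop :=
  ∃ K : Set (E n), IsCompact K ∧ ∃ Φ : ℝ → E n → E n, IsIsotopy K Φ ∧ Φ 0 = φ.map ∧
    Φ 1 = ψ.map ∧ ∀ t x, φ.map x = ψ.map x → Φ t x = φ.map x

/-- `θ` is a smooth family. -/
def IsSmoothFamily {n : ℕ} {P : Type} [NormedAddCommGroup P] [NormedSpace ℝ P] (θ : P → SympCt n) :
    Prop := ContDiff ℝ ∞ (fun p : P × E n => (θ p.1).map p.2)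

/-- (1) `φ` and `ψ` are isotopic if `(Dφ(x))⁻¹ Dψ(x)` has no negative eigenvalues, and the isotopy can
be taken stationary where `φ = ψ`; (2) the space of the symplectomorphisms whose differentials have no
negative eigenvalues is smoothly contractible; (3) `φ` and `ψ` are isotopic if
`|Dψ(x)v - Dφ(x)v| < |Dφ(x)v|` for all `x` and all `v ≠ 0`. -/
theorem result (n : ℕ) :
    (∀ φ ψ : SympCt n, NoNegative φ ψ → StationaryIsotopic φ ψ ∧ Joined φ ψ) ∧
    (∀ (P : Type) [NormedAddCommGroup P] [NormedSpace ℝ P] [CompleteSpace P] (θ : P → SympCt n),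
      IsSmoothFamily θ → (∀ s, NoNegative 1 (θ s)) →
      ∃ Θ : ℝ × P → SympCt n, IsSmoothFamily Θ ∧ (∀ s, Θ (0, s) = 1) ∧ (∀ s, Θ (1, s) = θ s) ∧
        (∀ q, NoNegative 1 (Θ q)) ∧ ∀ t s x, (θ s).map x = x → (Θ (t, s)).map x = x) ∧
    (∀ φ ψ : SympCt n, (∀ x v : E n, v ≠ 0 →
      ‖fderiv ℝ ψ.map x v - fderiv ℝ φ.map x v‖ < ‖fderiv ℝ φ.map x v‖) →
      Isotopic φ ψ ∧ Joined φ ψ) := by
  have h1 : ∀ φ ψ : SympCt n, NoNegative φ ψ → StationaryIsotopic φ ψ ∧ Joined φ ψ := by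
    intro φ ψ h
    have h0 := join_two φ ψ h
    refine ⟨h0, ?_⟩
    obtain ⟨K, hK, Φ, a, b, c, _⟩ := h0
    exact Isotopic.joined ⟨K, hK, Φ, a, b, c⟩
  have hid : ∀ x v : E n, fderiv ℝ (1 : SympCt n).map x v = v := by
    intro x v
    show fderiv ℝ (id : E n → E n) x v = v
    rw [fderiv_id]
    rfl
  refine ⟨h1, ?_, ?_⟩
  · intro P _ _ _ θ hθ hneg
    obtain ⟨Θ, a, b, c, d, e⟩ := contract_group n θ hθ (fun s x m v hm hv => hneg s x v m hm (by
      rw [hv, hid]))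
    refine ⟨fun q => Θ q.1 q.2, a, b, c, fun q x v m hm hv => d q.1 q.2 x m v hm ?_, e⟩
    rw [hv, hid]
  · intro φ ψ h
    obtain ⟨⟨K, hK, Φ, a, b, c, _⟩, hj⟩ := h1 φ ψ (by
      intro x v m hm hv
      by_contra hv0
      have h2 := h x v hv0
      rw [hv] at h2
      have h3 : m • fderiv ℝ φ.map x v - fderiv ℝ φ.map x v = (m - 1) • fderiv ℝ φ.map x v := by
        rw [sub_smul, one_smul]
      rw [h3, norm_smul, Real.norm_eq_abs, abs_of_neg (by linarith)] at h2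
      have h4 := norm_nonneg (fderiv ℝ φ.map x v)
      nlinarith)
    exact ⟨⟨K, hK, Φ, a, b, c⟩, hj⟩

end Pool.Agent.Results.MP_ec5dc5_gt.NegativeEigenvalues
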