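import Pool.Agent.X277.Sy.Open

/-!
# Small representatives of the path components
-/

set_option autoImplicit false

open Set Filter Topology Metric Function
open scoped ContDiff NNReal

noncomputable section

namespace Pool.Agent.Results.MP_ec5dc5_gt.SmallRepresentatives

open Pool.Agent.X277.Sy

/-- (1) The path components of `G` are open, they are the connected components and the classes of
smooth isotopy; (2) every nonempty open set supports representatives of all path components; (3) for
an open set `U` star-shaped about one of its points, two elements with compact support in `U` in one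
path component of `G` are isotopic with support in `U`; (4) `π₀(G)` is abelian; (5) symplectic
isotopies without any support condition act trivially on `π₀(G)`; (6) the identity component is
`C⁰`-dense; (7) `G` is path connected if and only if for some nonempty open set `U` and some `ε > 0` all
elements with compact support in `U` and `C⁰`-distance at most `ε` from the identity are in the
identity component. -/
theorem result (n : ℕ) :
    (∀ φ : SympCt n, IsOpen (pathComponent φ) ∧ connectedComponent φ = pathComponent φ ∧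
      ∀ ψ, Joined φ ψ ↔ Isotopic φ ψ) ∧
    (∀ U : Set (E n), IsOpen U → U.Nonempty → ∀ φ : SympCt n,
      ∃ ψ, SupportedWithin U ψ ∧ Joined φ ψ) ∧
    (∀ (U : Set (E n)) (p : E n), IsOpen U → p ∈ U → StarConvex ℝ p U → ∀ φ ψ : SympCt n,
      SupportedWithin U φ → SupportedWithin U ψ → Joined φ ψ → IsotopicWithin U φ ψ) ∧
    (∀ φ ψ : SympCt n, Joined (φ * ψ) (ψ * φ)) ∧
    (∀ h : ℝ → E n → E n, ContDiff ℝ ∞ (fun p : ℝ × E n => h p.1 p.2) →
      (∀ t, IsSymplectomorphism (h t)) → h 0 = id → ∀ φ ψ : SympCt n,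
      (∀ x, ψ.map (h 1 x) = h 1 (φ.map x)) → Joined φ ψ) ∧
    (∀ (φ : SympCt n) (p : E n) (ε : ℝ), 0 < ε → ∃ ψ : SympCt n, Joined ψ 1 ∧
      (∀ x, x ∉ ball p ε → ψ.map x = φ.map x) ∧ ∀ x, dist (ψ.map x) (φ.map x) ≤ ε) ∧
    (PathConnectedSpace (SympCt n) ↔ ∃ U : Set (E n), IsOpen U ∧ U.Nonempty ∧ ∃ ε > 0,
      ∀ φ : SympCt n, SupportedWithin U φ → (∀ x, dist (φ.map x) x ≤ ε) → Joined φ 1) := by
  have hpc : ∀ φ : SympCt n, pathComponent φ = {ψ | Isotopic φ ψ} := fun φ =>
    Set.ext fun ψ => joined_iff φ ψ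
  refine ⟨fun φ => ⟨?_, ?_, joined_iff φ⟩, ?_, ?_, ?_, ?_, ?_, ?_, ?_⟩
  · rw [hpc]
    exact isOpen_class φ
  · rw [hpc]
    exact component_eq φ
  · intro U hU hne φ
    obtain ⟨ψ, h1, h2⟩ := exists_small hU hne φ
    exact ⟨ψ, h1, h2.joined⟩
  · intro U p hU hp hstar φ ψ hφ hψ hj
    exact isotopicWithin_of_isotopic hU hp hstar hφ hψ ((joined_iff _ _).1 hj)
  · exact fun φ ψ => (comm_isotopic φ ψ).joined
  · exact fun h h1 h2 h3 φ ψ h4 => (conj_isotopic h1 h2 h3 φ ψ h4).joined
  · intro φ p ε hε
    obtain ⟨ψ, h1, h2, h3⟩ := dense φ p hε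
    exact ⟨ψ, h1.joined, h2, h3⟩
  · intro h
    exact ⟨univ, isOpen_univ, ⟨0, mem_univ _⟩, 1, one_pos, fun φ _ _ => h.joined φ 1⟩
  · rintro ⟨U, hU, ⟨p, hp⟩, ε, hε, h⟩
    have key : ∀ φ : SympCt n, Joined φ 1 := by
      intro φ
      have hV : IsOpen (U ∩ ball p (ε / 2)) := hU.inter isOpen_ball
      obtain ⟨χ, ⟨K, hK, hKV, hχ⟩, h2⟩ := exists_small hV
        ⟨p, hp, mem_ball_self (by linarith)⟩ φ
      refine h2.joined.trans (h χ ⟨K, hK, fun x hx => (hKV hx).1, hχ⟩ fun x => ?_)
      by_cases hx : x ∈ K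
      · have h3 : χ.map x ∈ K := by
          by_contra hn
          have h4 := congrArg χ⁻¹.map (hχ _ hn)
          rw [inv_map_map, inv_map_map] at h4
          rw [h4] at hn
          exact hn hx
        have h5 := mem_ball.1 (hKV hx).2
        have h6 := mem_ball.1 (hKV h3).2
        calc dist (χ.map x) x ≤ dist (χ.map x) p + dist x p := dist_triangle_right _ _ _
          _ ≤ ε := by linarith
      · rw [hχ x hx, dist_self]
        exact hε.le
    exact ⟨⟨1⟩, fun φ ψ => (key φ).trans (key ψ).symm⟩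

end Pool.Agent.Results.MP_ec5dc5_gt.SmallRepresentatives
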